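import Mathlib
import Pool.Agent.Q196.GB.Omega

/-!
# A Gurarii space of density `ℵ₁` with a monotone transfinite Schauder basis
-/

namespace Pool.Agent.Results.MP_63eeb0_an.MonotoneBasis

open Cardinal Set Topology
open Pool.Agent.Q196.GB

/-- The density of `X`: the least cardinality of a dense subset. -/
noncomputable def density (X : Type) [TopologicalSpace X] : Cardinal.{0} :=
  sInf {κ | ∃ D : Set X, Dense D ∧ #D = κ}

/-- Gurarii spaces: for all `ε > 0`, all finite-dimensional spaces `E ⊆ F` and every isometric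
embedding `e : E → X` there is a linear `f : F → X` with
`(1 + ε)⁻¹ ‖y‖ ≤ ‖f y‖ ≤ (1 + ε) ‖y‖` for all `y ∈ F` and `‖f y - e y‖ ≤ ε ‖y‖` for all `y ∈ E`. -/
def IsGurarii (X : Type) [NormedAddCommGroup X] [NormedSpace ℝ X] : Prop :=
  ∀ ε : ℝ, 0 < ε → ∀ (F : Type) [NormedAddCommGroup F] [NormedSpace ℝ F]
    [FiniteDimensional ℝ F] (E : Submodule ℝ F) (e : E →ₗᵢ[ℝ] X), ∃ f : F →ₗ[ℝ] X,
      (∀ y, (1 + ε)⁻¹ * ‖y‖ ≤ ‖f y‖ ∧ ‖f y‖ ≤ (1 + ε) * ‖y‖) ∧
      ∀ y : E, ‖f y - e y‖ ≤ ε * ‖y‖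

/-- `(e α)`, `α < o`, is a monotone transfinite Schauder basis of `X` of length `o`: the vectors
are nonzero, their linear span is dense, and there are linear projections `P β`, `β ≤ o`, of norm
at most one, with `P β (e α) = e α` for `α < β`, `P β (e α) = 0` for `α ≥ β` and `P o = id`, such
that `β ↦ P β x` is continuous on `[0, o]` (order topology) for all `x`. -/
structure IsMonotoneBasis {X : Type} [NormedAddCommGroup X] [NormedSpace ℝ X]
    (o : Ordinal.{0}) (e : Ordinal.{0} → X) : Prop where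
  ne_zero : ∀ α < o, e α ≠ 0
  dense_span : Dense (Submodule.span ℝ (e '' Iio o) : Set X)
  projections : ∃ P : Ordinal.{0} → X →L[ℝ] X,
    (∀ β ≤ o, ‖P β‖ ≤ 1 ∧ ∀ x, P β (P β x) = P β x) ∧
    (∀ β ≤ o, ∀ α < o, (α < β → P β (e α) = e α) ∧ (β ≤ α → P β (e α) = 0)) ∧
    P o = ContinuousLinearMap.id ℝ X ∧ ∀ x, ContinuousOn (fun β => P β x) (Iic o)

open Classical in
/-- The basis. -/
noncomputable def basis (α : Ordinal.{0}) : G :=
  if h : α < (ℵ₁ : Cardinal.{0}).ord then bas (Ordinal.ToType.mk ⟨α, h⟩) else 0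

theorem basis_of_lt {α : Ordinal.{0}} (h : α < (ℵ₁ : Cardinal.{0}).ord) :
    basis α = bas (Ordinal.ToType.mk ⟨α, h⟩) := by
  unfold basis
  rw [dif_pos h]

theorem ord'_mk {α : Ordinal.{0}} (h : α < (ℵ₁ : Cardinal.{0}).ord) :
    ord' (Ordinal.ToType.mk ⟨α, h⟩) = α := by
  unfold ord' Ordinal.ToType.toOrd
  rw [OrderIso.symm_apply_apply]

theorem basis_ord' (i : W) : basis (ord' i) = bas i := by
  rw [basis_of_lt (ord'_lt i)]
  congr 1
  exact Ordinal.ToType.mk.apply_symm_apply i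

theorem isGurarii : IsGurarii G := by
  intro ε hε F _ _ _ E e
  let r := e.equivRange
  obtain ⟨f, hf1, hf2⟩ := gurarii Om psi_rich ε hε (LinearMap.range e.toLinearMap) F
    (E.subtypeₗᵢ.comp r.symm.toLinearIsometry)
  refine ⟨f.toLinearMap, fun y => ⟨?_, (hf1 y).2⟩, fun y => ?_⟩
  · rw [inv_mul_eq_div]
    exact (hf1 y).1
  · have h := hf2 (r y)
    have h1 : (E.subtypeₗᵢ.comp r.symm.toLinearIsometry) (r y) = (y : F) := by
      show ((r.symm (r y) : E) : F) = y
      rw [r.symm_apply_apply]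
    rw [h1] at h
    have h2 : ‖r y‖ = ‖y‖ := r.norm_map y
    rw [h2] at h
    exact h

theorem density_eq : density G = ℵ₁ := by
  unfold density
  apply le_antisymm
  · exact csInf_le' exists_dense
  · refine le_csInf ⟨_, exists_dense⟩ ?_
    rintro _ ⟨D, hD, rfl⟩
    exact mk_le_of_dense D hD

theorem isMonotoneBasis : IsMonotoneBasis (ℵ₁ : Cardinal.{0}).ord basis where
  ne_zero α hα h0 := by
    rw [basis_of_lt hα] at h0
    have := one_le_norm_bas (Ordinal.ToType.mk ⟨α, hα⟩)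
    rw [h0, norm_zero] at this
    linarith
  dense_span := by
    have h : basis '' Iio (ℵ₁ : Cardinal.{0}).ord = Set.range bas := by
      ext x
      constructor
      · rintro ⟨α, hα, rfl⟩
        exact ⟨_, (basis_of_lt hα).symm⟩
      · rintro ⟨i, rfl⟩
        exact ⟨ord' i, ord'_lt i, basis_ord' i⟩
    rw [h]
    exact span_dense
  projections := by
    refine ⟨proj, fun β _ => ⟨norm_proj_le β, proj_proj β⟩, fun β _ α hα => ⟨fun h => ?_,
      fun h => ?_⟩, proj_top, fun x => (continuous_proj x).continuousOn⟩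
    · rw [basis_of_lt hα]
      exact proj_bas_of_lt (by rwa [ord'_mk hα])
    · rw [basis_of_lt hα]
      exact proj_bas_of_le (by rwa [ord'_mk hα])

/-- **MP_63eeb0_an, Q1 (yes).** There is a real Banach space which is a Gurarii space of density
`ℵ₁` and has a monotone transfinite Schauder basis, of length `ω₁`. -/
theorem result : ∃ (X : Type) (_ : NormedAddCommGroup X) (_ : NormedSpace ℝ X),
    CompleteSpace X ∧ IsGurarii X ∧ density X = ℵ₁ ∧
      ∃ e : Ordinal.{0} → X, IsMonotoneBasis (ℵ₁ : Cardinal.{0}).ord e :=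
  ⟨G, inferInstance, inferInstance, inferInstance, isGurarii, density_eq, basis, isMonotoneBasis⟩

end Pool.Agent.Results.MP_63eeb0_an.MonotoneBasis
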